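import Mathlib

set_option autoImplicit false

/-!
# A coloured six-cycle with a binomial linear relation not induced by symmetries

All vertices of the six-cycle `0, 1, ..., 5` have one colour, the edges `01, 12, 34` have one colour
and the edges `23, 45, 50` another one. This coloured graph has no nontrivial symmetry, but
`x_15 - x_24` vanishes on the inverses of the matrices of the model.
-/

namespace Pool.Agent.Results.MP_c04d7c_ag.SixCycle

open MvPolynomial Matrix

/-- A coloured graph on the vertex set `Fin m`: a simple graph with colours of the vertices and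
of the edges. -/
structure ColouredGraph (m : ℕ) where
  graph : SimpleGraph (Fin m)
  vertexColour : Fin m → ℕ
  edgeColour : Sym2 (Fin m) → ℕ

variable {m : ℕ}

/-- The linear space of real symmetric matrices of a coloured graph. -/
def ColouredGraph.space (G : ColouredGraph m) : Set (Matrix (Fin m) (Fin m) ℝ) :=
  {K | K.IsSymm ∧ (∀ i j, i ≠ j → ¬ G.graph.Adj i j → K i j = 0) ∧
    (∀ i j, G.vertexColour i = G.vertexColour j → K i i = K j j) ∧
    ∀ i j k l, G.graph.Adj i j → G.graph.Adj k l → G.edgeColour s(i, j) = G.edgeColour s(k, l) →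
      K i j = K k l}

/-- The inverses of the invertible matrices of the space, as points with coordinates indexed by
the unordered pairs `{i, j}` (with `i = j` allowed). -/
def ColouredGraph.inverses (G : ColouredGraph m) : Set (Sym2 (Fin m) → ℝ) :=
  {x | ∃ K ∈ G.space, IsUnit K ∧ ∀ i j, x s(i, j) = K⁻¹ i j}

/-- The ideal of the polynomials in the variables `x_ij` which vanish on the inverses. -/
noncomputable def ColouredGraph.ideal (G : ColouredGraph m) : Ideal (MvPolynomial (Sym2 (Fin m)) ℝ) :=
  vanishingIdeal ℝ G.inverses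

/-- A symmetry: a permutation of the vertices which is a graph automorphism and preserves the
colours of the vertices and of the edges. -/
def ColouredGraph.IsSymmetry (G : ColouredGraph m) (σ : Equiv.Perm (Fin m)) : Prop :=
  (∀ i j, G.graph.Adj (σ i) (σ j) ↔ G.graph.Adj i j) ∧
    (∀ i, G.vertexColour (σ i) = G.vertexColour i) ∧
    ∀ i j, G.graph.Adj i j → G.edgeColour s(σ i, σ j) = G.edgeColour s(i, j)

/-- The real linear span of the forms `x_ij - x_σ(i)σ(j)` for the symmetries `σ`. -/
noncomputable def ColouredGraph.inducedForms (G : ColouredGraph m) :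
    Submodule ℝ (MvPolynomial (Sym2 (Fin m)) ℝ) :=
  Submodule.span ℝ {p | ∃ σ, G.IsSymmetry σ ∧ ∃ i j, p = X s(i, j) - X s(σ i, σ j)}

/-- A binomial linear form: a linear form with exactly two nonzero coefficients. -/
def IsBinomialLinearForm (p : MvPolynomial (Sym2 (Fin m)) ℝ) : Prop :=
  p.IsHomogeneous 1 ∧ p.support.card = 2

/-- The coloured six-cycle. -/
def six : ColouredGraph 6 where
  graph := SimpleGraph.cycleGraph 6
  vertexColour := fun _ => 0
  edgeColour := fun e => if e = s(0, 1) ∨ e = s(1, 2) ∨ e = s(3, 4) then 0 else 1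

lemma six_symmetry (σ : Equiv.Perm (Fin 6)) (h : six.IsSymmetry σ) : σ = 1 := by
  have key : ∀ σ : Equiv.Perm (Fin 6),
      (∀ i j, (SimpleGraph.cycleGraph 6).Adj (σ i) (σ j) ↔ (SimpleGraph.cycleGraph 6).Adj i j) →
      (∀ i j, (SimpleGraph.cycleGraph 6).Adj i j →
        six.edgeColour s(σ i, σ j) = six.edgeColour s(i, j)) → σ = 1 := by
    decide +kernel
  exact key σ h.1 h.2.2

lemma six_space {K : Matrix (Fin 6) (Fin 6) ℝ} (hK : K ∈ six.space) :
    ∃ u a b : ℝ, K = !![u, a, 0, 0, 0, b; a, u, a, 0, 0, 0; 0, a, u, b, 0, 0; 0, 0, b, u, a, 0;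
      0, 0, 0, a, u, b; b, 0, 0, 0, b, u] := by
  obtain ⟨hs, h0, hv, he⟩ := hK
  refine ⟨K 0 0, K 0 1, K 5 0, ?_⟩
  have hz : ∀ i j, i ≠ j → ¬ (SimpleGraph.cycleGraph 6).Adj i j → K i j = 0 := h0
  have hd : ∀ i, K i i = K 0 0 := fun i => hv i 0 rfl
  have h01 : (SimpleGraph.cycleGraph 6).Adj 0 1 := by decide
  have h50 : (SimpleGraph.cycleGraph 6).Adj 5 0 := by decide
  have ha : ∀ i j, (SimpleGraph.cycleGraph 6).Adj i j → six.edgeColour s(i, j) = 0 →
      K i j = K 0 1 := fun i j h hc => he i j 0 1 h h01 (by rw [hc]; decide)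
  have hb : ∀ i j, (SimpleGraph.cycleGraph 6).Adj i j → six.edgeColour s(i, j) = 1 →
      K i j = K 5 0 := fun i j h hc => he i j 5 0 h h50 (by rw [hc]; decide)
  ext i j
  fin_cases i <;> fin_cases j <;>
    first
    | exact hd _
    | exact hz _ _ (by decide) (by decide)
    | exact ha _ _ (by decide) (by decide)
    | exact hb _ _ (by decide) (by decide)

lemma six_adjugate (u a b : ℝ) :
    (!![u, a, 0, 0, 0, b; a, u, a, 0, 0, 0; 0, a, u, b, 0, 0; 0, 0, b, u, a, 0;
      0, 0, 0, a, u, b; b, 0, 0, 0, b, u] : Matrix (Fin 6) (Fin 6) ℝ).adjugate 1 5 =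
    (!![u, a, 0, 0, 0, b; a, u, a, 0, 0, 0; 0, a, u, b, 0, 0; 0, 0, b, u, a, 0;
      0, 0, 0, a, u, b; b, 0, 0, 0, b, u] : Matrix (Fin 6) (Fin 6) ℝ).adjugate 2 4 := by
  rw [adjugate_apply, adjugate_apply]
  simp [Matrix.det_succ_row_zero, Fin.sum_univ_succ, Fin.succAbove, updateRow, Function.update]
  ring

/-- There is a coloured six-cycle, with only one vertex colour, and a binomial linear form in the
ideal of the inverses which is not induced by symmetries. -/
theorem result : ∃ G : ColouredGraph 6, G.graph = SimpleGraph.cycleGraph 6 ∧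
    (∀ i j, G.vertexColour i = G.vertexColour j) ∧
    ∃ p ∈ G.ideal, IsBinomialLinearForm p ∧ p ∉ G.inducedForms := by
  have hne : (s(1, 5) : Sym2 (Fin 6)) ≠ s(2, 4) := by decide
  refine ⟨six, rfl, fun _ _ => rfl, X s(1, 5) - X s(2, 4), ?_, ⟨?_, ?_⟩, ?_⟩
  · intro x hx
    obtain ⟨K, hK, hu, h⟩ := hx
    obtain ⟨u, a, b, hK'⟩ := six_space hK
    rw [map_sub, aeval_X, aeval_X, h, h, Matrix.inv_def, Matrix.smul_apply, Matrix.smul_apply, hK',
      six_adjugate, sub_self]
  · exact (isHomogeneous_X _ _).sub (isHomogeneous_X _ _)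
  · have : (X s(1, 5) - X s(2, 4) : MvPolynomial (Sym2 (Fin 6)) ℝ).support =
        {Finsupp.single s(1, 5) 1, Finsupp.single s(2, 4) 1} := by
      ext m
      rw [mem_support_iff, coeff_sub, coeff_X, coeff_X, Finset.mem_insert, Finset.mem_singleton]
      have hne' : (Finsupp.single s(1, 5) 1 : Sym2 (Fin 6) →₀ ℕ) ≠ Finsupp.single s(2, 4) 1 := by
        intro h
        exact hne ((Finsupp.single_left_inj one_ne_zero).1 h)
      by_cases h1 : Finsupp.single s(1, 5) 1 = m
      · subst h1
        simp [hne'.symm]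
      · by_cases h2 : Finsupp.single s(2, 4) 1 = m
        · subst h2
          simp [hne']
        · simp [h1, h2, Ne.symm h1, Ne.symm h2]
    rw [this, Finset.card_pair]
    intro h
    exact hne ((Finsupp.single_left_inj one_ne_zero).1 h)
  · intro h
    have h1 : six.inducedForms = ⊥ := by
      rw [eq_bot_iff]
      refine Submodule.span_le.2 ?_
      rintro p ⟨σ, hσ, i, j, rfl⟩
      rw [six_symmetry σ hσ]
      simp
    rw [h1, Submodule.mem_bot, sub_eq_zero] at h
    exact hne (X_injective h)

end Pool.Agent.Results.MP_c04d7c_ag.SixCycle
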